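import Pool.Agent.W544.KF.Defs2

set_option autoImplicit false

/-! Basic properties of the partial trace (project KF). -/

open CategoryTheory MonoidalCategory

namespace Pool.Agent.W60.KF

open Pool.Agent.W544.KF

universe v u

theorem basic : S_basic.{v, u} := by
  intro D _ _ _ _ _ X Y _
  refine ⟨?_, ?_, ?_⟩
  · intro A B f g
    simp only [ptr, monoidalComp, MonoidalPreadditive.add_whiskerRight, Preadditive.comp_add,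
      Preadditive.add_comp]
  · intro A A' B f g
    calc ptr X Y (f ▷ X ≫ g)
        = 𝟙 A' ⊗≫ (A' ◁ (η_ X Y) ≫ f ▷ (X ⊗ Y)) ⊗≫ g ▷ Y ⊗≫
            B ◁ ((β_ X Y).hom ≫ ε_ X Y) ⊗≫ 𝟙 B := by
          unfold ptr; monoidal
      _ = 𝟙 A' ⊗≫ (f ▷ (𝟙_ D) ≫ A ◁ (η_ X Y)) ⊗≫ g ▷ Y ⊗≫
            B ◁ ((β_ X Y).hom ≫ ε_ X Y) ⊗≫ 𝟙 B := by
          rw [whisker_exchange]
      _ = f ≫ ptr X Y g := by
          unfold ptr; monoidal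
  · intro A B B' f g
    calc ptr X Y (g ≫ f ▷ X)
        = 𝟙 A ⊗≫ A ◁ (η_ X Y) ⊗≫ g ▷ Y ⊗≫
            (f ▷ (X ⊗ Y) ≫ B' ◁ ((β_ X Y).hom ≫ ε_ X Y)) ⊗≫ 𝟙 B' := by
          unfold ptr; monoidal
      _ = 𝟙 A ⊗≫ A ◁ (η_ X Y) ⊗≫ g ▷ Y ⊗≫
            (B ◁ ((β_ X Y).hom ≫ ε_ X Y) ≫ f ▷ (𝟙_ D)) ⊗≫ 𝟙 B' := by
          rw [whisker_exchange]
      _ = ptr X Y g ≫ f := by
          unfold ptr; monoidal

end Pool.Agent.W60.KF
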